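import Pool.Agent.W477.GM.Stms

set_option maxHeartbeats 1000000
set_option autoImplicit false

namespace Pool.Agent.W477.GM.Dist12

open Pool.Agent.W477.GM

/-- a distributivity lemma for partial orders with lower bounds of short decreasing families -/
theorem general {X : Type 1} [PartialOrder X] (κ : Cardinal.{0}) (I : Type)
    (hI : Cardinal.mk I < κ) (A : I → X → Prop) (hA : ∀ i t t', t' ≤ t → A i t → A i t')
    (Good : X → Prop) (t0 : X)
    (hcl : ∀ (S : Type) [LinearOrder S] (f : S → X), Cardinal.mk S < κ → (∀ s, Good (f s)) →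
      (∀ s s', s ≤ s' → f s' ≤ f s) → ∃ t, Good t ∧ ∀ s, t ≤ f s) :
    ∃ t, Good t ∧ ∀ i, A i t ∨ ∀ t', t' ≤ t → Good t' → ¬ A i t' := by
  classical
  obtain ⟨lo, wf⟩ := exists_wellFoundedLT I
  set P : I → X → Prop := fun i x => Good x ∧ (A i x ∨ ∀ t', t' ≤ x → Good t' → ¬ A i t') with hP
  set step : ∀ i : I, (∀ j : I, j < i → X) → X := fun i g =>
    if h : ∃ x, P i x ∧ ∀ (j : I) (hj : j < i), x ≤ g j hj then h.choose else t0 with hstep
  set f : I → X := (wellFounded_lt (α := I)).fix step with hf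
  have feq' : ∀ i, f i = step i (fun j _ => f j) := fun i => by
    rw [hf]; exact (wellFounded_lt (α := I)).fix_eq step i
  have dec : ∀ (i : I) (t : X), Good t → ∃ x, x ≤ t ∧ P i x := by
    intro i t ht
    by_cases h : ∃ t', t' ≤ t ∧ Good t' ∧ A i t'
    · obtain ⟨t', h1, h2, h3⟩ := h
      exact ⟨t', h1, h2, Or.inl h3⟩
    · refine ⟨t, le_rfl, ht, Or.inr fun t' h1 h2 h3 => h ⟨t', h1, h2, h3⟩⟩
  have claim : ∀ i, P i (f i) ∧ ∀ j, j < i → f i ≤ f j := by
    intro i
    induction i using (wellFounded_lt (α := I)).induction with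
    | _ i ih =>
      obtain ⟨t, ht1, ht2⟩ := hcl {j // j < i} (fun j => f j.1)
        (lt_of_le_of_lt (Cardinal.mk_subtype_le _) hI) (fun j => (ih j.1 j.2).1.1)
        (fun s s' hss => by
          rcases eq_or_lt_of_le hss with h | h
          · rw [h]
          · exact (ih s'.1 s'.2).2 s.1 h)
      obtain ⟨x, hx1, hx2⟩ := dec i t ht1
      have hex : ∃ x, P i x ∧ ∀ (j : I) (hj : j < i), x ≤ (fun j _ => f j : ∀ j : I, j < i → X) j hj :=
        ⟨x, hx2, fun j hj => hx1.trans (ht2 ⟨j, hj⟩)⟩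
      have e : f i = hex.choose := by
        rw [feq' i, hstep]
        simp only
        rw [dif_pos hex]
      rw [e]
      exact ⟨hex.choose_spec.1, fun j hj => hex.choose_spec.2 j hj⟩
  obtain ⟨t, ht1, ht2⟩ := hcl I f hI (fun i => (claim i).1.1) (fun s s' hss => by
    rcases eq_or_lt_of_le hss with h | h
    · rw [h]
    · exact (claim s').2 s h)
  refine ⟨t, ht1, fun i => ?_⟩
  rcases (claim i).1.2 with h | h
  · exact Or.inl (hA i _ _ (ht2 i) h)
  · exact Or.inr fun t' h1 h2 => h t' (h1.trans (ht2 i)) h2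

theorem dist_holds : P_DIST := by
  classical
  intro hK C _ _ L b e I A t0 hI h0 hL hA
  set T : J → Prop := fun j => b ≤ j.1 ∧ (j.1, j.2.1) ∈ e with hT
  have hTfin : {j : J | T j}.Finite := by
    have h1 : ((e ×ˢ (Finset.univ : Finset Bool)).image
        (fun x : (Ordinal.{0} × ℕ) × Bool => ((x.1.1, x.1.2, x.2) : J)) : Set J).Finite :=
      Finset.finite_toSet _
    refine h1.subset ?_
    rintro ⟨β, n, s⟩ ⟨-, h2⟩
    rw [Finset.mem_coe, Finset.mem_image]
    exact ⟨((β, n), s), Finset.mem_product.2 ⟨h2, Finset.mem_univ _⟩, rfl⟩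
  set Good : Cn C L → Prop := fun t => t ≤ t0 ∧ t.c = t0.c ∧ ∀ j, ¬ T j → t.len j = 0 with hGood
  have hg0 : Good t0 := ⟨le_rfl, rfl, h0⟩
  have hcl : ∀ (S : Type) [LinearOrder S] (f : S → Cn C L), Cardinal.mk S < kap b →
      (∀ s, Good (f s)) → (∀ s s', s ≤ s' → f s' ≤ f s) → ∃ t, Good t ∧ ∀ s, t ≤ f s := by
    intro S _ f hS hf1 hf2
    rcases isEmpty_or_nonempty S with hE | ⟨⟨s0⟩⟩
    · exact ⟨t0, hg0, fun s => (hE.false s).elim⟩
    have hlenT : ∀ j, ¬ T j → (⨆ s, (f s).len j) = 0 := by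
      intro j hj
      have h1 : ∀ s, (f s).len j = 0 := fun s => (hf1 s).2.2 j hj
      haveI : Nonempty S := ⟨s0⟩
      simp only [h1]
      exact ciSup_const
    have hTlen : ∀ j, (⨆ s, (f s).len j) ≠ 0 → T j := by
      intro j hj
      by_contra h
      exact hj (hlenT j h)
    have hble : ∀ j s, (f s).len j ≤ ⨆ s, (f s).len j := fun j s =>
      Ordinal.le_iSup (fun s => (f s).len j) s
    let t : Cn C L :=
      { c := t0.c
        len := fun j => ⨆ s, (f s).len j
        bit := fun j o => decide (∃ s, o < (f s).len j ∧ (f s).bit j o = true)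
        fin := hTfin.subset fun j hj => hTlen j hj
        lt := fun j => by
          by_cases hj : T j
          · exact Cardinal.iSup_lt_ord_of_isRegular (hK.reg j.1)
              (lt_of_lt_of_le hS (hK.mono b j.1 hj.1)) (fun s => (f s).lt j)
          · rw [hlenT j hj]; exact kap_pos _
        off := fun j o ho => by
          rw [decide_eq_false_iff_not]
          rintro ⟨s, hs, -⟩
          exact absurd (hs.trans_le (hble j s)) (not_lt.2 ho)
        sup := fun j hj => hL j.1 j.2.1 (hTlen j hj).2 }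
    have key : ∀ s, t ≤ f s := by
      intro s
      rw [Cn.le_def]
      refine ⟨?_, fun j => ⟨hble j s, fun o ho => ?_⟩⟩
      · show t0.c ≤ (f s).c
        rw [(hf1 s).2.1]
      · show decide (∃ s, o < (f s).len j ∧ (f s).bit j o = true) = (f s).bit j o
        rcases hb : (f s).bit j o with _ | _
        · rw [decide_eq_false_iff_not]
          rintro ⟨s', hs', hs2⟩
          rcases le_total s s' with h | h
          · have := (Cn.le_def.1 (hf2 s s' h)).2 j
            rw [this.2 o ho, hb] at hs2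
            exact Bool.noConfusion hs2
          · have := (Cn.le_def.1 (hf2 s' s h)).2 j
            rw [← this.2 o hs', hb] at hs2
            exact Bool.noConfusion hs2
        · rw [decide_eq_true_iff]
          exact ⟨s, ho, hb⟩
    exact ⟨t, ⟨(key s0).trans (hf1 s0).1, rfl, hlenT⟩, key⟩
  obtain ⟨t, ht, hdec⟩ := general (kap b) I hI A hA Good t0 hcl
  refine ⟨t, ht.1, ht.2.1, ht.2.2, fun i => ?_⟩
  rcases hdec i with h | h
  · exact Or.inl h
  · exact Or.inr fun t' h1 h2 h3 => h t' h1 ⟨h1.trans ht.1, h2, h3⟩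

end Pool.Agent.W477.GM.Dist12
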